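import Pool.Agent.H68.LP.Fin
import Pool.Agent.H68.LP.ANI
import Pool.Agent.H35.LP.SUR
import Pool.Agent.H35.LP.ORB
import Pool.Agent.H19.LP.CONJ
import Pool.Agent.H39.LP.MUA
import Pool.Agent.H70.LP.MUB
import Pool.Agent.H39.LP.SO4
import Pool.Agent.H19.LP.EXA

set_option autoImplicit false

/-!
# The images of Lie polynomials on `so_4`

Let `K` be an algebraically closed field of characteristic zero. The Lie algebra `so_4` is
`LieAlgebra.Orthogonal.so (Fin 4) K`, the skew-symmetric `4 × 4` matrices. A Lie polynomial is an element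
`p` of the free Lie algebra on the letters `0, 1, 2, ...`, and `image L p` is the set of its values on `L`.
`IsHomog` and `IsMulti` say that `p` is homogeneous, respectively multilinear. `sd A` and `asd A` are the two
components of `A` in the decomposition of `so_4` into two ideals isomorphic to `sl_2`, written as pure
quaternions, and `middle K` is the set of the skew-symmetric matrices for which none of the two
components is a nonzero nilpotent (a nonzero pure quaternion of norm zero).

The images of the Lie polynomials on `so_4` are exactly the three sets `{0}`, `middle K` and `so_4`, each of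
them is the image of a homogeneous Lie polynomial, and the images of the multilinear Lie polynomials
are exactly `{0}` and `so_4`.
-/

namespace Pool.Agent.Results.MP_d55432_al.ImagesOnSoFour

open Pool.Agent.H68.LP

theorem result (K : Type) [Field K] [IsAlgClosed K] [CharZero K] :
    (∀ p : FreeLieAlgebra K ℕ, image (LieAlgebra.Orthogonal.so (Fin 4) K) p = {0} ∨
      image (LieAlgebra.Orthogonal.so (Fin 4) K) p = middle K ∨
      image (LieAlgebra.Orthogonal.so (Fin 4) K) p = Set.univ) ∧
    (∃ p : FreeLieAlgebra K ℕ, IsHomog p ∧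
      image (LieAlgebra.Orthogonal.so (Fin 4) K) p = {0}) ∧
    (∃ p : FreeLieAlgebra K ℕ, IsHomog p ∧
      image (LieAlgebra.Orthogonal.so (Fin 4) K) p = middle K) ∧
    (∃ p : FreeLieAlgebra K ℕ, IsHomog p ∧
      image (LieAlgebra.Orthogonal.so (Fin 4) K) p = Set.univ) ∧
    (∀ p : FreeLieAlgebra K ℕ, IsMulti p →
      image (LieAlgebra.Orthogonal.so (Fin 4) K) p = {0} ∨
      image (LieAlgebra.Orthogonal.so (Fin 4) K) p = Set.univ) ∧
    (∃ p : FreeLieAlgebra K ℕ, IsMulti p ∧
      image (LieAlgebra.Orthogonal.so (Fin 4) K) p = {0}) ∧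
    (∃ p : FreeLieAlgebra K ℕ, IsMulti p ∧
      image (LieAlgebra.Orthogonal.so (Fin 4) K) p = Set.univ) ∧
    (middle K ≠ {0} ∧ middle K ≠ Set.univ ∧
      (Set.univ : Set (LieAlgebra.Orthogonal.so (Fin 4) K)) ≠ {0}) :=
  assembled t_ANI H35.LP.t_SUR H19.LP.t_CON H35.LP.t_ORB H39.LP.t_MUA H70.LP.t_MUB H39.LP.t_SO4 H19.LP.t_EXA K

end Pool.Agent.Results.MP_d55432_al.ImagesOnSoFour
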